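import Pool.Agent.H289Z.EG1

/-!
# A principal amenable etale groupoid without finite dynamical complexity
-/

set_option autoImplicit false

namespace Pool.Agent.Results.MP_b83b91_an.ANotFDC

open Pool.Agent.H289Z.EG

theorem result : ∃ (G X : Type) (_ : TopologicalSpace G) (_ : TopologicalSpace X)
    (_ : LocallyCompactSpace G) (_ : T2Space G) (_ : SecondCountableTopology G)
    (_ : CompactSpace X) (𝒢 : EtaleGroupoid G X), Principal 𝒢 ∧ Amenable 𝒢 ∧ ¬ FDC 𝒢 :=
  main

end Pool.Agent.Results.MP_b83b91_an.ANotFDC
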